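import Pool.Agent.W417.SB.Hat

/-! The contraction step. -/

set_option autoImplicit false

open Metric Set

namespace Pool.Agent.W417.SB

open Pool.Agent.W737.SB

variable {n : ℕ}

/-- inclusion of the second factor -/
noncomputable def inj (n : ℕ) : V n →L[ℂ] HH n :=
  (WithLp.prodContinuousLinearEquiv 2 ℂ ℂ (V n)).symm.toContinuousLinearMap.comp
    (ContinuousLinearMap.inr ℂ ℂ (V n))

/-- first component -/
noncomputable def pf (n : ℕ) : HH n →L[ℂ] ℂ := WithLp.fstL 2 ℂ ℂ (V n)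

/-- second component -/
noncomputable def ps (n : ℕ) : HH n →L[ℂ] V n := WithLp.sndL 2 ℂ ℂ (V n)

theorem pf_apply (x : HH n) : pf n x = x.fst := rfl

theorem ps_apply (x : HH n) : ps n x = x.snd := rfl

theorem inj_fst (u : V n) : (inj n u).fst = 0 := rfl

theorem inj_snd (u : V n) : (inj n u).snd = u := rfl

theorem lift_eq (y : V n) : lift y = lift 0 + inj n y := by
  refine hext ?_ ?_
  · rw [WithLp.add_fst, inj_fst, add_zero]
    rfl
  · rw [WithLp.add_snd, inj_snd]
    exact (zero_add y).symm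

theorem hasFDerivAt_lift (g : HH n →L[ℂ] HH n) (x : V n) :
    HasFDerivAt (fun y => g (lift y)) (g.comp (inj n)) x := by
  have h : (fun y : V n => g (lift y)) = fun y => g (lift 0) + (g.comp (inj n)) y := by
    funext y
    rw [lift_eq, map_add]
    rfl
  rw [h]
  exact (g.comp (inj n)).hasFDerivAt.const_add _

/-- the derivative of the automorphism in terms of the lift -/
theorem fderiv_aut (g : HH n →L[ℂ] HH n) (a : V n)
    (hg : ∀ x : V n, ‖x‖ < 1 → (g (lift x)).fst ≠ 0 ∧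
      g (lift x) = (g (lift x)).fst • lift (aut a x)) {x : V n} (hx : ‖x‖ < 1)
    (hd : DifferentiableAt ℂ (aut a) x) (u : V n) :
    (g (lift x)).fst • fderiv ℂ (aut a) x u =
      (g (inj n u)).snd - (g (inj n u)).fst • aut a x := by
  have h1 : HasFDerivAt (fun y => (g (lift y)).fst) ((pf n).comp (g.comp (inj n))) x :=
    (pf n).hasFDerivAt.comp x (hasFDerivAt_lift g x)
  have h2 : HasFDerivAt (fun y => (g (lift y)).snd) ((ps n).comp (g.comp (inj n))) x :=
    (ps n).hasFDerivAt.comp x (hasFDerivAt_lift g x)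
  have h3 := h1.smul hd.hasFDerivAt
  have h4 : (fun y => (g (lift y)).snd) =ᶠ[nhds x]
      (fun y => (g (lift y)).fst • aut a y) := by
    have hx' : x ∈ ball (0 : V n) 1 := by simpa using hx
    filter_upwards [isOpen_ball.mem_nhds hx'] with y hy
    have hy' : ‖y‖ < 1 := by simpa using hy
    have := congrArg WithLp.snd (hg y hy').2
    rw [WithLp.smul_snd] at this
    exact this
  have h5 := (h3.congr_of_eventuallyEq h4).unique h2
  have h6 := DFunLike.congr_fun h5 u
  simp only [add_apply, smul_apply,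
    ContinuousLinearMap.smulRight_apply, ContinuousLinearMap.comp_apply, pf_apply,
    ps_apply] at h6
  rw [← h6]
  abel

theorem inj_fld (M : HH n →L[ℂ] HH n) (x : V n) :
    inj n (fld M x) = M (lift x) - (M (lift x)).fst • lift x := by
  refine hext ?_ ?_
  · rw [inj_fst, WithLp.sub_fst, WithLp.smul_fst, smul_eq_mul]
    change 0 = (M (lift x)).fst - (M (lift x)).fst * 1
    ring
  · rw [inj_snd, WithLp.sub_snd, WithLp.smul_snd]
    rfl

/-- push forward of projective fields -/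
theorem push (g : HH n →L[ℂ] HH n) (hgg : ∀ x, g (g x) = x) (a : V n)
    (hg : ∀ x : V n, ‖x‖ < 1 → (g (lift x)).fst ≠ 0 ∧
      g (lift x) = (g (lift x)).fst • lift (aut a x)) {x : V n} (hx : ‖x‖ < 1)
    (hd : DifferentiableAt ℂ (aut a) x) (M : HH n →L[ℂ] HH n) :
    fderiv ℂ (aut a) x (fld M x) = fld (g.comp (M.comp g)) (aut a x) := by
  obtain ⟨hp, hl⟩ := hg x hx
  have h1 := fderiv_aut g a hg hx hd (fld M x)
  rw [inj_fld, map_sub, map_smul, WithLp.sub_snd, WithLp.sub_fst, WithLp.smul_snd,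
    WithLp.smul_fst] at h1
  have h2 : (g (lift x)).snd = (g (lift x)).fst • aut a x := by
    have := congrArg WithLp.snd hl
    rw [WithLp.smul_snd] at this
    exact this
  rw [h2] at h1
  have h3 : g (lift (aut a x)) = ((g (lift x)).fst)⁻¹ • lift x := by
    have h4 := congrArg g hl
    rw [hgg, map_smul] at h4
    rw [eq_inv_smul_iff₀ hp]
    exact h4.symm
  have h5 : fld (g.comp (M.comp g)) (aut a x) = ((g (lift x)).fst)⁻¹ •
      ((g (M (lift x))).snd - (g (M (lift x))).fst • aut a x) := by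
    rw [fld]
    simp only [ContinuousLinearMap.comp_apply]
    rw [h3, map_smul, map_smul, WithLp.smul_snd, WithLp.smul_fst, smul_sub, smul_smul,
      smul_eq_mul]
  rw [h5, eq_inv_smul_iff₀ hp, h1]
  simp only [smul_eq_mul, sub_smul, mul_smul]
  abel

theorem norm_inj (u : V n) : ‖inj n u‖ = ‖u‖ := by
  have h := norm_sq_HH (inj n u)
  rw [inj_fst, inj_snd, norm_zero] at h
  have h2 : ‖inj n u‖ ^ 2 = ‖u‖ ^ 2 := by rw [h]; ring
  exact (sq_eq_sq₀ (norm_nonneg _) (norm_nonneg _)).1 h2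

theorem norm_fst_le (x : HH n) : ‖x.fst‖ ≤ ‖x‖ := by
  have h := norm_sq_HH x
  nlinarith [norm_nonneg x, norm_nonneg x.fst, norm_nonneg x.snd, sq_nonneg ‖x.snd‖]

theorem norm_snd_le (x : HH n) : ‖x.snd‖ ≤ ‖x‖ := by
  have h := norm_sq_HH x
  nlinarith [norm_nonneg x, norm_nonneg x.fst, norm_nonneg x.snd, sq_nonneg ‖x.fst‖]

theorem norm_lift_le {y : V n} (hy : ‖y‖ < 1) : ‖lift y‖ ≤ 3 / 2 := by
  have h := norm_sq_HH (lift y)
  have h1 : ‖(lift y).fst‖ = 1 := norm_one
  have h2 : ‖(lift y).snd‖ = ‖y‖ := rfl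
  rw [h1, h2] at h
  nlinarith [norm_nonneg (lift y), norm_nonneg y]

theorem one_le_norm_lift (y : V n) : 1 ≤ ‖lift y‖ := by
  have h := norm_fst_le (lift y)
  have h1 : ‖(lift y).fst‖ = 1 := norm_one
  rwa [h1] at h

theorem fderiv_bound (g : HH n →L[ℂ] HH n) (hgg : ∀ x, g (g x) = x) (a : V n)
    (hg : ∀ x : V n, ‖x‖ < 1 → (g (lift x)).fst ≠ 0 ∧
      g (lift x) = (g (lift x)).fst • lift (aut a x)) {x : V n} (hx : ‖x‖ < 1)
    (hax : ‖aut a x‖ < 1) (hd : DifferentiableAt ℂ (aut a) x) (hn : ‖g‖ ^ 2 ≤ 4) (u : V n) :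
    ‖fderiv ℂ (aut a) x u‖ ≤ 12 * ‖u‖ := by
  obtain ⟨hp, hl⟩ := hg x hx
  have h1 := congrArg norm (fderiv_aut g a hg hx hd u)
  rw [norm_smul] at h1
  have h2 : ‖(g (inj n u)).snd - (g (inj n u)).fst • aut a x‖ ≤ 2 * (‖g‖ * ‖u‖) := by
    have h3 : ‖g (inj n u)‖ ≤ ‖g‖ * ‖u‖ := by
      have := g.le_opNorm (inj n u)
      rwa [norm_inj] at this
    refine (norm_sub_le _ _).trans ?_
    rw [norm_smul]
    have h4 := norm_fst_le (g (inj n u))
    have h5 := norm_snd_le (g (inj n u))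
    have h6 : ‖(g (inj n u)).fst‖ * ‖aut a x‖ ≤ ‖g (inj n u)‖ * 1 :=
      mul_le_mul h4 hax.le (norm_nonneg _) (norm_nonneg _)
    linarith
  have h7 : 1 ≤ ‖(g (lift x)).fst‖ * (‖g‖ * (3 / 2)) := by
    have h8 := congrArg g hl
    rw [hgg, map_smul] at h8
    have h9 := congrArg norm h8
    rw [norm_smul] at h9
    have h10 := one_le_norm_lift x
    have h11 := g.le_opNorm (lift (aut a x))
    have h12 := norm_lift_le hax
    have h13 : ‖g‖ * ‖lift (aut a x)‖ ≤ ‖g‖ * (3 / 2) :=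
      mul_le_mul_of_nonneg_left h12 (norm_nonneg _)
    rw [h9] at h10
    refine h10.trans (mul_le_mul_of_nonneg_left (h11.trans h13) (norm_nonneg _))
  have h14 : ‖fderiv ℂ (aut a) x u‖ ≤ ‖fderiv ℂ (aut a) x u‖ *
      (‖(g (lift x)).fst‖ * (‖g‖ * (3 / 2))) := le_mul_of_one_le_right (norm_nonneg _) h7
  have h15 : ‖fderiv ℂ (aut a) x u‖ * (‖(g (lift x)).fst‖ * (‖g‖ * (3 / 2))) ≤
      2 * (‖g‖ * ‖u‖) * (‖g‖ * (3 / 2)) := by
    have h16 : ‖fderiv ℂ (aut a) x u‖ * (‖(g (lift x)).fst‖ * (‖g‖ * (3 / 2))) =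
        (‖(g (lift x)).fst‖ * ‖fderiv ℂ (aut a) x u‖) * (‖g‖ * (3 / 2)) := by ring
    rw [h16, h1]
    exact mul_le_mul_of_nonneg_right h2 (by positivity)
  have h17 : 2 * (‖g‖ * ‖u‖) * (‖g‖ * (3 / 2)) = ‖g‖ ^ 2 * (3 * ‖u‖) := by ring
  rw [h17] at h15
  have h18 : ‖g‖ ^ 2 * (3 * ‖u‖) ≤ 4 * (3 * ‖u‖) :=
    mul_le_mul_of_nonneg_right hn (by positivity)
  linarith

theorem fld_add (M N : HH n →L[ℂ] HH n) (x : V n) : fld (M + N) x = fld M x + fld N x := by
  rw [fld, fld, fld, add_apply, WithLp.add_snd, WithLp.add_fst, add_smul]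
  abel

theorem J_add_left (x y z : HH n) : J (x + y) z = J x z + J y z := by
  rw [J, J, J, WithLp.add_fst, WithLp.add_snd, map_add, inner_add_left]
  ring

theorem J_add_right (x y z : HH n) : J x (y + z) = J x y + J x z := by
  rw [J, J, J, WithLp.add_fst, WithLp.add_snd, inner_add_right]
  ring

theorem t_con (h1 : S_aut) (h2 : S_hat) (h3 : S_ent) (h4 : S_qu) : S_con := by
  intro n
  refine ⟨200000, by norm_num, ?_⟩
  intro a ha Z M ε hε hM hZ b A hA hb
  have ha1 : ‖a‖ < 1 := by linarith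
  have ha0 := norm_nonneg a
  obtain ⟨g, hgg, hgJ, hgn, hgl⟩ := h2 n a ha1
  obtain ⟨hdiff, hmaps, hinv, -, -, -, hgrow, -⟩ := h1 n a ha1
  have hn : ‖g‖ ^ 2 ≤ 4 := by
    refine hgn.trans ?_
    rw [div_le_iff₀ (by linarith)]
    linarith
  have hgs : ∀ u y, J (g u) y = J u (g y) := by
    intro u y
    have := hgJ u (g y)
    rwa [hgg] at this
  let M1 : HH n →L[ℂ] HH n := g.comp (M.comp g)
  have hM1 : IsJ M1 := by
    intro x y
    change J (g (M (g x))) y = J x (g (M (g y)))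
    rw [hgs, hM, hgs]
  have hdiffAt : ∀ y : V n, ‖y‖ < 1 → DifferentiableAt ℂ (aut a) y := by
    intro y hy
    have hy' : y ∈ ball (0 : V n) 1 := by simpa using hy
    exact hdiff.differentiableAt (isOpen_ball.mem_nhds hy')
  have key : ∀ x : V n, ‖x‖ ≤ 1 / 10 → ‖fld M1 x - qf b A x‖ ≤ 13 * ε := by
    intro x hx
    have hx1 : x ∈ ball (0 : V n) 1 := by
      rw [mem_ball_zero_iff]
      linarith
    have hy1 : aut a x ∈ ball (0 : V n) 1 := hmaps hx1
    have hyn : ‖aut a x‖ < 1 := by simpa using hy1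
    have hy2 : ‖aut a x‖ ≤ 4 / 5 := by
      have h5 := hgrow x hx1
      nlinarith [norm_nonneg (aut a x), norm_nonneg x, mul_nonneg ha0 (norm_nonneg x),
        mul_nonneg (norm_nonneg (aut a x)) (mul_nonneg ha0 (norm_nonneg x))]
    have hyy : aut a (aut a x) = x := hinv x hx1
    have h6 := push g hgg a hgl hyn (hdiffAt _ hyn) M
    rw [hyy] at h6
    have h7 := hb x (by linarith)
    have h8 := fderiv_bound g hgg a hgl hyn (by rw [hyy]; linarith) (hdiffAt _ hyn) hn
      (Z (aut a x) - fld M (aut a x))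
    rw [map_sub, h6] at h8
    have h9 := hZ (aut a x) hy2
    have h10 : fld M1 x - qf b A x =
        (fderiv ℂ (aut a) (aut a x) (Z (aut a x)) - qf b A x) -
        (fderiv ℂ (aut a) (aut a x) (Z (aut a x)) - fld (g.comp (M.comp g)) x) := by
      change fld (g.comp (M.comp g)) x - qf b A x = _
      abel
    rw [h10]
    refine (norm_sub_le _ _).trans ?_
    linarith
  obtain ⟨b', A', -, hA', hfld, -⟩ := h3.1 n M1 hM1
  obtain ⟨hbb, hAA⟩ := h4 n b' b A' A (13 * ε) (1 / 10) (by norm_num) (by norm_num)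
    (by positivity) (fun x hx => by
      rw [← hfld]
      exact key x hx)
  have hsym : Sym (A - A') := by
    intro x y
    rw [sub_apply, sub_apply, inner_sub_left,
      inner_sub_right, hA x y, hA' x y]
  obtain ⟨N, hNJ, hNf, hNn⟩ := h3.2 n (b - b') (A - A') hsym
  have hNn' : ‖N‖ ≤ 416 * ε := by
    have h11 : ‖b - b'‖ ≤ 13 * ε := by rwa [norm_sub_rev]
    have h12 : ‖A - A'‖ ≤ 3 * (13 * ε) / (1 / 10) := by rwa [norm_sub_rev]
    have h13 : 3 * (13 * ε) / (1 / 10) = 390 * ε := by ring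
    rw [h13] at h12
    linarith
  refine ⟨M1 + N, ?_, ?_, ?_⟩
  · intro x y
    rw [add_apply, add_apply, J_add_left, J_add_right,
      hM1, hNJ]
  · intro x
    rw [fld_add, hfld, hNf, qf, qf, qf, sub_apply, inner_sub_left, sub_smul]
    abel
  · have h14 : (M1 + N).comp (M1 + N) = M1.comp M1 + (M1.comp N + N.comp M1) + N.comp N := by
      rw [ContinuousLinearMap.add_comp, ContinuousLinearMap.comp_add,
        ContinuousLinearMap.comp_add]
      abel
    have h15 : M1.comp M1 = g.comp ((M.comp M).comp g) := by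
      ext1 x
      change g (M (g (g (M (g x))))) = g (M (M (g x)))
      rw [hgg]
    have h16 : ‖M1.comp M1‖ ≤ (1 + ‖a‖) / (1 - ‖a‖) * ‖M.comp M‖ := by
      rw [h15]
      refine (ContinuousLinearMap.opNorm_comp_le _ _).trans ?_
      refine (mul_le_mul_of_nonneg_left (ContinuousLinearMap.opNorm_comp_le _ _)
        (norm_nonneg _)).trans ?_
      have : ‖g‖ * (‖M.comp M‖ * ‖g‖) = ‖g‖ ^ 2 * ‖M.comp M‖ := by ring
      rw [this]
      exact mul_le_mul_of_nonneg_right hgn (norm_nonneg _)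
    have h17 : ‖M1‖ ≤ 4 * ‖M‖ := by
      refine (ContinuousLinearMap.opNorm_comp_le _ _).trans ?_
      refine (mul_le_mul_of_nonneg_left (ContinuousLinearMap.opNorm_comp_le _ _)
        (norm_nonneg _)).trans ?_
      have : ‖g‖ * (‖M‖ * ‖g‖) = ‖g‖ ^ 2 * ‖M‖ := by ring
      rw [this]
      exact mul_le_mul_of_nonneg_right hn (norm_nonneg _)
    have h18 : ‖M1.comp N‖ ≤ 4 * ‖M‖ * (416 * ε) :=
      (ContinuousLinearMap.opNorm_comp_le _ _).trans
        (mul_le_mul h17 hNn' (norm_nonneg _) (by positivity))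
    have h19 : ‖N.comp M1‖ ≤ (416 * ε) * (4 * ‖M‖) :=
      (ContinuousLinearMap.opNorm_comp_le _ _).trans
        (mul_le_mul hNn' h17 (norm_nonneg _) (by positivity))
    have h20 : ‖N.comp N‖ ≤ (416 * ε) * (416 * ε) :=
      (ContinuousLinearMap.opNorm_comp_le _ _).trans
        (mul_le_mul hNn' hNn' (norm_nonneg _) (by positivity))
    rw [h14]
    refine (norm_add_le _ _).trans ?_
    have h21 := norm_add_le (M1.comp M1) (M1.comp N + N.comp M1)
    have h22 := norm_add_le (M1.comp N) (N.comp M1)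
    nlinarith [mul_nonneg hε (norm_nonneg M), mul_nonneg hε hε]

end Pool.Agent.W417.SB
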