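import Pool.Agent.W737.SB.Defs

/-! The linear lift of the ball automorphism. -/

set_option autoImplicit false

open Metric Set

namespace Pool.Agent.W417.SB

open Pool.Agent.W737.SB

variable {n : ℕ}

theorem hext {x y : HH n} (h1 : x.fst = y.fst) (h2 : x.snd = y.snd) : x = y :=
  WithLp.ofLp_injective 2 (Prod.ext h1 h2)

/-- the lift as a linear map -/
noncomputable def gl (a : V n) (s : ℝ) : HH n →ₗ[ℂ] HH n where
  toFun x := WithLp.toLp 2 ((s : ℂ)⁻¹ * (x.fst - inner ℂ a x.snd),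
    (s : ℂ)⁻¹ • (x.fst • a - (s : ℂ) • x.snd - ((inner ℂ a x.snd : ℂ) / (1 + (s : ℂ))) • a))
  map_add' x y := by
    refine hext ?_ ?_
    · simp only [WithLp.toLp_fst, WithLp.add_fst, WithLp.add_snd, inner_add_right]
      ring
    · simp only [WithLp.toLp_snd, WithLp.add_fst, WithLp.add_snd, inner_add_right]
      module
  map_smul' c x := by
    refine hext ?_ ?_
    · simp only [WithLp.toLp_fst, WithLp.smul_fst, WithLp.smul_snd, inner_smul_right,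
        RingHom.id_apply, smul_eq_mul]
      ring
    · simp only [WithLp.toLp_snd, WithLp.smul_fst, WithLp.smul_snd, inner_smul_right,
        RingHom.id_apply, smul_eq_mul]
      module

theorem gl_fst (a : V n) (s : ℝ) (x : HH n) :
    (gl a s x).fst = (s : ℂ)⁻¹ * (x.fst - inner ℂ a x.snd) := rfl

theorem gl_snd (a : V n) (s : ℝ) (x : HH n) :
    (gl a s x).snd = (s : ℂ)⁻¹ • (x.fst • a - (s : ℂ) • x.snd -
      ((inner ℂ a x.snd : ℂ) / (1 + (s : ℂ))) • a) := rfl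

theorem inner_self_s {a : V n} {s : ℝ} (hs : s ^ 2 = 1 - ‖a‖ ^ 2) :
    (inner ℂ a a : ℂ) = (1 - (s : ℂ)) * (1 + s) := by
  rw [inner_self_eq_norm_sq_to_K]
  have h : ‖a‖ ^ 2 = (1 - s) * (1 + s) := by linear_combination hs
  have h2 := congrArg (fun t : ℝ => (t : ℂ)) h
  push_cast at h2
  exact h2

theorem gl_gl {a : V n} {s : ℝ} (hs0 : 0 < s) (hs : s ^ 2 = 1 - ‖a‖ ^ 2) (x : HH n) :
    gl a s (gl a s x) = x := by
  have hsc : (s : ℂ) ≠ 0 := by exact_mod_cast hs0.ne'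
  have h1sc : (1 + (s : ℂ)) ≠ 0 := by
    have : (1 + s : ℝ) ≠ 0 := by positivity
    exact_mod_cast this
  have haa := inner_self_s hs
  have hin : (inner ℂ a (gl a s x).snd : ℂ) =
      (s : ℂ)⁻¹ * (x.fst * ((1 - (s : ℂ)) * (1 + s)) - inner ℂ a x.snd) := by
    rw [gl_snd, inner_smul_right, inner_sub_right, inner_sub_right, inner_smul_right,
      inner_smul_right, inner_smul_right, haa]
    field_simp
    ring
  refine hext ?_ ?_
  · rw [gl_fst, hin, gl_fst]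
    field_simp
    ring
  · rw [gl_snd, hin, gl_fst, gl_snd]
    match_scalars
    · field_simp
      ring
    · field_simp

theorem gl_sa (a : V n) (s : ℝ) (x y : HH n) : J (gl a s x) y = J x (gl a s y) := by
  have hc : (starRingEnd ℂ) (inner ℂ a x.snd) = inner ℂ x.snd a := inner_conj_symm _ _
  have hs1 : (starRingEnd ℂ) ((1 : ℂ) + (s : ℂ)) = 1 + (s : ℂ) := by
    rw [map_add, map_one, Complex.conj_ofReal]
  have hs2 : (starRingEnd ℂ) ((s : ℂ)⁻¹) = (s : ℂ)⁻¹ := by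
    rw [map_inv₀, Complex.conj_ofReal]
  rw [J, J, gl_fst, gl_snd, gl_fst, gl_snd]
  simp only [inner_smul_left, inner_smul_right, inner_sub_left, inner_sub_right, map_mul, map_sub,
    map_div₀, hs1, hs2, hc, Complex.conj_ofReal]
  ring

theorem gl_J {a : V n} {s : ℝ} (hs0 : 0 < s) (hs : s ^ 2 = 1 - ‖a‖ ^ 2) (x y : HH n) :
    J (gl a s x) (gl a s y) = J x y := by
  rw [gl_sa, gl_gl hs0 hs]

theorem J_self (x : HH n) : J x x = ((‖x.fst‖ ^ 2 - ‖x.snd‖ ^ 2 : ℝ) : ℂ) := by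
  rw [J, inner_self_eq_norm_sq_to_K, mul_comm, Complex.mul_conj, Complex.normSq_eq_norm_sq]
  push_cast
  rfl

theorem norm_sq_HH (x : HH n) : ‖x‖ ^ 2 = ‖x.fst‖ ^ 2 + ‖x.snd‖ ^ 2 :=
  WithLp.prod_norm_sq_eq_of_L2 x

theorem gl_norm {a : V n} (ha : ‖a‖ < 1) {s : ℝ} (hs0 : 0 < s) (hs : s ^ 2 = 1 - ‖a‖ ^ 2)
    (x : HH n) : ‖gl a s x‖ ^ 2 ≤ (1 + ‖a‖) / (1 - ‖a‖) * ‖x‖ ^ 2 := by
  have h1 : ‖(gl a s x).fst‖ ^ 2 - ‖(gl a s x).snd‖ ^ 2 = ‖x.fst‖ ^ 2 - ‖x.snd‖ ^ 2 := by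
    have := gl_J hs0 hs x x
    rw [J_self, J_self] at this
    exact_mod_cast this
  have h2 : ‖(gl a s x).fst‖ * s = ‖x.fst - inner ℂ a x.snd‖ := by
    rw [gl_fst, norm_mul, norm_inv, Complex.norm_real, Real.norm_of_nonneg hs0.le]
    field_simp
  have h3 : ‖x.fst - inner ℂ a x.snd‖ ≤ ‖x.fst‖ + ‖a‖ * ‖x.snd‖ :=
    (norm_sub_le _ _).trans (add_le_add le_rfl (norm_inner_le_norm _ _))
  have h4 : (‖(gl a s x).fst‖ * s) ^ 2 ≤ (‖x.fst‖ + ‖a‖ * ‖x.snd‖) ^ 2 := by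
    rw [h2]
    exact pow_le_pow_left₀ (norm_nonneg _) h3 2
  have ha0 := norm_nonneg a
  rw [div_mul_eq_mul_div, le_div_iff₀ (by linarith), norm_sq_HH, norm_sq_HH]
  have h5 : 0 < 1 + ‖a‖ := by linarith
  refine le_of_mul_le_mul_left ?_ h5
  have h6 : (1 + ‖a‖) * ((‖(gl a s x).fst‖ ^ 2 + ‖(gl a s x).snd‖ ^ 2) * (1 - ‖a‖)) =
      s ^ 2 * (2 * ‖(gl a s x).fst‖ ^ 2 - (‖x.fst‖ ^ 2 - ‖x.snd‖ ^ 2)) := by
    rw [hs, ← h1]
    ring
  rw [h6]
  rw [mul_pow] at h4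
  have h7 := mul_nonneg ha0 (sq_nonneg (‖x.fst‖ - ‖x.snd‖))
  have h8 : s ^ 2 * (2 * ‖(gl a s x).fst‖ ^ 2 - (‖x.fst‖ ^ 2 - ‖x.snd‖ ^ 2)) =
      2 * (‖(gl a s x).fst‖ ^ 2 * s ^ 2) - (1 - ‖a‖ ^ 2) * (‖x.fst‖ ^ 2 - ‖x.snd‖ ^ 2) := by
    rw [← hs]
    ring
  rw [h8]
  nlinarith [h4, h7]

theorem t_hat : S_hat := by
  intro n a ha
  have hw2 : 0 < 1 - ‖a‖ ^ 2 := by nlinarith [norm_nonneg a]
  set s : ℝ := Real.sqrt (1 - ‖a‖ ^ 2) with hsdef
  have hs0 : 0 < s := Real.sqrt_pos.2 hw2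
  have hs2 : s ^ 2 = 1 - ‖a‖ ^ 2 := Real.sq_sqrt hw2.le
  have hsc : (s : ℂ) ≠ 0 := by exact_mod_cast hs0.ne'
  have hr : 0 ≤ (1 + ‖a‖) / (1 - ‖a‖) := div_nonneg (by positivity) (by linarith)
  refine ⟨LinearMap.toContinuousLinearMap (gl a s), gl_gl hs0 hs2, gl_J hs0 hs2, ?_, ?_⟩
  · have hb : ‖LinearMap.toContinuousLinearMap (gl a s)‖ ≤
        Real.sqrt ((1 + ‖a‖) / (1 - ‖a‖)) := by
      refine ContinuousLinearMap.opNorm_le_bound _ (Real.sqrt_nonneg _) fun x => ?_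
      have hx := Real.le_sqrt_of_sq_le (gl_norm ha hs0 hs2 x)
      rw [Real.sqrt_mul hr, Real.sqrt_sq (norm_nonneg _)] at hx
      exact hx
    calc _ ≤ (Real.sqrt ((1 + ‖a‖) / (1 - ‖a‖))) ^ 2 :=
          pow_le_pow_left₀ (norm_nonneg _) hb 2
      _ = _ := Real.sq_sqrt hr
  · intro x hx
    have h1 : (1 - inner ℂ a x : ℂ) ≠ 0 := by
      intro h
      have h1 : (inner ℂ a x : ℂ) = 1 := by linear_combination -h
      have h2 := norm_inner_le_norm (𝕜 := ℂ) a x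
      rw [h1, norm_one] at h2
      nlinarith [norm_nonneg a, norm_nonneg x]
    have hf : (gl a s (lift x)).fst = (s : ℂ)⁻¹ * (1 - inner ℂ a x) := rfl
    change (gl a s (lift x)).fst ≠ 0 ∧ gl a s (lift x) = (gl a s (lift x)).fst • lift (aut a x)
    refine ⟨?_, ?_⟩
    · rw [hf]
      exact mul_ne_zero (inv_ne_zero hsc) h1
    · refine hext ?_ ?_
      · rw [WithLp.smul_fst, smul_eq_mul]
        exact (mul_one _).symm
      · rw [WithLp.smul_snd, hf]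
        change (s : ℂ)⁻¹ • ((1 : ℂ) • a - (s : ℂ) • x -
          ((inner ℂ a x : ℂ) / (1 + (s : ℂ))) • a) = _ • aut a x
        rw [aut, smul_smul, mul_assoc, mul_inv_cancel₀ h1, mul_one, one_smul]

end Pool.Agent.W417.SB
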